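import Pool.Agent.H724.SU.Prof

set_option autoImplicit false

open MeasureTheory Set Filter Topology

namespace Pool.Agent.H724.SU

open Pool.Agent.R612.SU

/-! ### General facts on densities -/

theorem hasDens_congr {T T' : Set ℂ} {p : ℂ} {δ r0 : ℝ} (hr : 0 < r0)
    (h : T ∩ Metric.ball p r0 = T' ∩ Metric.ball p r0) (hT : HasDens T p δ) :
    HasDens T' p δ := by
  unfold HasDens at *
  refine hT.congr' ?_
  have h1 : ∀ᶠ r : ℝ in 𝓝[>] 0, r < r0 :=
    eventually_nhdsWithin_of_eventually_nhds (eventually_lt_nhds hr)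
  filter_upwards [h1] with r hr1
  have h2 : T ∩ Metric.ball p r = T' ∩ Metric.ball p r := by
    have hsub : Metric.ball p r ⊆ Metric.ball p r0 := Metric.ball_subset_ball hr1.le
    calc T ∩ Metric.ball p r = (T ∩ Metric.ball p r0) ∩ Metric.ball p r := by
          rw [inter_assoc, inter_eq_self_of_subset_right hsub]
      _ = (T' ∩ Metric.ball p r0) ∩ Metric.ball p r := by rw [h]
      _ = T' ∩ Metric.ball p r := by rw [inter_assoc, inter_eq_self_of_subset_right hsub]
  rw [h2]

/-- locality in terms of neighborhoods -/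
theorem hasDens_congr' {T T' : Set ℂ} {p : ℂ} {δ : ℝ}
    (h : ∀ᶠ z in 𝓝 p, (z ∈ T ↔ z ∈ T')) (hT : HasDens T p δ) :
    HasDens T' p δ := by
  obtain ⟨r0, hr0, hb⟩ := Metric.eventually_nhds_iff_ball.1 h
  refine hasDens_congr hr0 ?_ hT
  ext z
  constructor
  · rintro ⟨h1, h2⟩
    exact ⟨(hb z h2).1 h1, h2⟩
  · rintro ⟨h1, h2⟩
    exact ⟨(hb z h2).2 h1, h2⟩

theorem vol_ball (p : ℂ) (r : ℝ) (hr : 0 < r) :
    (volume (Metric.ball p r)).toReal = Real.pi * r ^ 2 := by
  rw [Complex.volume_ball]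
  rw [ENNReal.toReal_mul, ENNReal.toReal_pow, ENNReal.toReal_ofReal hr.le]
  rw [mul_comm]
  rfl

theorem hasDens_univ (p : ℂ) : HasDens univ p 1 := by
  unfold HasDens
  refine tendsto_const_nhds.congr' ?_
  filter_upwards [self_mem_nhdsWithin] with r hr
  have hr' : (0 : ℝ) < r := hr
  rw [univ_inter, vol_ball p r hr', div_self]
  positivity

theorem hasDens_image (g : ℂ ≃ₗᵢ[ℝ] ℂ) {T : Set ℂ} {p : ℂ} {δ : ℝ} (hT : HasDens T p δ) :
    HasDens (g '' T) (g p) δ := by
  unfold HasDens at *
  refine hT.congr fun r => ?_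
  have h1 : g '' T ∩ Metric.ball (g p) r = g '' (T ∩ Metric.ball p r) := by
    rw [image_inter g.injective]
    congr 1
    rw [← LinearIsometryEquiv.coe_toIsometryEquiv]
    rw [IsometryEquiv.image_ball]
  rw [h1]
  have h2 : volume (g '' (T ∩ Metric.ball p r)) = volume (T ∩ Metric.ball p r) := by
    have h3 := (g.symm.measurePreserving).measure_preimage_equiv (f := g.symm.toHomeomorph.toMeasurableEquiv)
      (T ∩ Metric.ball p r)
    have h4 : g '' (T ∩ Metric.ball p r) = (g.symm.toHomeomorph.toMeasurableEquiv) ⁻¹' (T ∩ Metric.ball p r) := by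
      ext z
      constructor
      · rintro ⟨x, hx, rfl⟩
        simpa using hx
      · intro hz
        exact ⟨g.symm z, hz, by simp⟩
    rw [h4]
    exact h3
  rw [h2]

/-- half of a symmetric region -/
theorem hasDens_half {T : Set ℂ} {p : ℂ} {δ : ℝ} {y0 : ℝ} (hp : p.im = y0)
    (hsym : ∀ z : ℂ, z ∈ T ↔ (⟨z.re, 2 * y0 - z.im⟩ : ℂ) ∈ T) (hT : HasDens T p δ) :
    HasDens (T ∩ {z | z.im ≤ y0}) p (δ / 2) := by
  unfold HasDens at *
  have key : ∀ r : ℝ, (volume (T ∩ {z | z.im ≤ y0} ∩ Metric.ball p r)).toReal =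
      (volume (T ∩ Metric.ball p r)).toReal / 2 := by
    intro r
    -- the reflection
    let σ : ℂ → ℂ := fun z => (Complex.conjLIE z) + (⟨0, 2 * y0⟩ : ℂ)
    have hσ : MeasurePreserving σ volume volume :=
      (measurePreserving_add_right volume (⟨0, 2 * y0⟩ : ℂ)).comp
        Complex.conjLIE.measurePreserving
    have hσ1 : ∀ z : ℂ, σ z = ⟨z.re, 2 * y0 - z.im⟩ := by
      intro z
      apply Complex.ext
      · simp [σ]
      · simp [σ]; ring
    have hσσ : ∀ z, σ (σ z) = z := by
      intro z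
      rw [hσ1, hσ1]
      apply Complex.ext <;> simp
    have hσball : ∀ z, z ∈ Metric.ball p r ↔ σ z ∈ Metric.ball p r := by
      intro z
      rw [Metric.mem_ball, Metric.mem_ball, hσ1, Complex.dist_eq_re_im, Complex.dist_eq_re_im]
      have : (2 * y0 - z.im - p.im) ^ 2 = (z.im - p.im) ^ 2 := by rw [hp]; ring
      simp only [this]
    have hmeas1 : MeasurableSet {z : ℂ | z.im ≤ y0} :=
      measurableSet_le Complex.measurable_im measurable_const
    set B := T ∩ Metric.ball p r with hB
    have e1 : T ∩ {z | z.im ≤ y0} ∩ Metric.ball p r = B ∩ {z | z.im ≤ y0} := by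
      rw [hB, inter_assoc, inter_assoc, inter_comm {z : ℂ | z.im ≤ y0}]
    have e2 : volume (B \ {z | z.im ≤ y0}) = volume (B ∩ {z | z.im ≤ y0}) := by
      have e3 : volume (B ∩ {z | z.im ≤ y0}) = volume (B ∩ {z | z.im < y0}) := by
        have hnull : volume {z : ℂ | z.im = y0} = 0 := by
          have h := Complex.volume_preserving_equiv_real_prod.measure_preimage_equiv
            (univ ×ˢ ({y0} : Set ℝ))
          have h' : Complex.measurableEquivRealProd ⁻¹' (univ ×ˢ ({y0} : Set ℝ)) =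
              {z : ℂ | z.im = y0} := by
            ext z
            simp
          rw [← h', h, Measure.volume_eq_prod, Measure.prod_prod]
          simp
        apply le_antisymm
        · have : B ∩ {z | z.im ≤ y0} ⊆ (B ∩ {z | z.im < y0}) ∪ {z : ℂ | z.im = y0} := by
            rintro z ⟨h1, h2⟩
            have h2' : z.im ≤ y0 := h2
            rcases lt_or_eq_of_le h2' with h3 | h3
            · exact Or.inl ⟨h1, h3⟩
            · exact Or.inr h3
          calc volume (B ∩ {z | z.im ≤ y0}) ≤ volume ((B ∩ {z | z.im < y0}) ∪ {z : ℂ | z.im = y0}) :=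
                measure_mono this
            _ ≤ volume (B ∩ {z | z.im < y0}) + volume {z : ℂ | z.im = y0} := measure_union_le _ _
            _ = volume (B ∩ {z | z.im < y0}) := by rw [hnull, add_zero]
        · refine measure_mono fun z hz => ⟨hz.1, ?_⟩
          have h2' : z.im < y0 := hz.2
          exact h2'.le
      rw [e3]
      have e4 : B \ {z | z.im ≤ y0} = σ ⁻¹' (B ∩ {z | z.im < y0}) := by
        ext z
        have hT1 : z ∈ T ↔ σ z ∈ T := by rw [hσ1]; exact hsym z
        have him : (σ z).im = 2 * y0 - z.im := by rw [hσ1]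
        constructor
        · rintro ⟨⟨h1, h1'⟩, h2⟩
          have h2' : ¬ z.im ≤ y0 := h2
          refine ⟨⟨hT1.1 h1, (hσball z).1 h1'⟩, ?_⟩
          change (σ z).im < y0
          rw [him]
          linarith [not_le.1 h2']
        · rintro ⟨⟨h1, h1'⟩, h2⟩
          have h2' : (σ z).im < y0 := h2
          rw [him] at h2'
          refine ⟨⟨hT1.2 h1, (hσball z).2 h1'⟩, ?_⟩
          change ¬ z.im ≤ y0
          rw [not_le]
          linarith
      rw [e4]
      let σe : ℂ ≃ᵐ ℂ := Complex.conjLIE.toHomeomorph.toMeasurableEquiv.trans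
        (MeasurableEquiv.addRight (⟨0, 2 * y0⟩ : ℂ))
      have hσe : (σe : ℂ → ℂ) = σ := rfl
      have h5 := MeasurePreserving.measure_preimage_equiv (f := σe) (μa := volume) (μb := volume)
        (by rw [hσe]; exact hσ) (B ∩ {z | z.im < y0})
      rw [hσe] at h5
      exact h5
    have e5 : volume B = volume (B ∩ {z | z.im ≤ y0}) + volume (B ∩ {z | z.im ≤ y0}) := by
      have := measure_inter_add_sdiff (μ := volume) B hmeas1
      rw [e2] at this
      exact this.symm
    rw [e1, e5]
    have hfin : volume (B ∩ {z | z.im ≤ y0}) ≠ ⊤ := by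
      refine ne_top_of_le_ne_top (measure_ball_lt_top (μ := volume) (x := p) (r := r)).ne
        (measure_mono ?_)
      rintro z ⟨h1, h2⟩
      exact h1.2
    rw [ENNReal.toReal_add hfin hfin]
    ring
  have h1 := hT.div_const 2
  refine h1.congr fun r => ?_
  rw [key r]
  ring

/-! ### The region -/

theorem hasDens_nhds {T : Set ℂ} {p : ℂ} (h : T ∈ 𝓝 p) : HasDens T p 1 := by
  refine hasDens_congr' ?_ (hasDens_univ p)
  filter_upwards [h] with z hz
  exact ⟨fun _ => hz, fun _ => mem_univ _⟩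

/-- the reflection in the imaginary axis -/
noncomputable def mRe : ℂ ≃ₗᵢ[ℝ] ℂ := Complex.conjLIE.trans (LinearIsometryEquiv.neg ℝ)

theorem mRe_re (z : ℂ) : (mRe z).re = -z.re := by simp [mRe]

theorem mRe_im (z : ℂ) : (mRe z).im = z.im := by simp [mRe]

theorem mRe_mRe (z : ℂ) : mRe (mRe z) = z := by
  apply Complex.ext
  · rw [mRe_re, mRe_re, neg_neg]
  · rw [mRe_im, mRe_im]

theorem mRe_reg (f : ℤ → ℝ) (m : ℕ) (w : ℝ) : mRe '' reg f m w = reg f m w := by
  have h : ∀ z, z ∈ reg f m w → mRe z ∈ reg f m w := by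
    rintro z ⟨h1, h2⟩
    refine ⟨?_, ?_⟩
    · rw [mRe_im]; exact h1
    · rw [mRe_im, mRe_re, abs_neg]; exact h2
  ext z
  constructor
  · rintro ⟨x, hx, rfl⟩
    exact h x hx
  · intro hz
    exact ⟨mRe z, h z hz, mRe_mRe z⟩

theorem dens_mRe {f : ℤ → ℝ} {m : ℕ} {w : ℝ} {p : ℂ} {δ : ℝ}
    (h : HasDens (reg f m w) (mRe p) δ) : HasDens (reg f m w) p δ := by
  have h1 := hasDens_image mRe h
  rwa [mRe_reg, mRe_mRe] at h1

theorem conj_reg (f : ℤ → ℝ) (m : ℕ) (w : ℝ) :
    Complex.conjLIE '' reg (fun s => f (-s)) m w = reg f m w := by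
  ext z
  constructor
  · rintro ⟨x, ⟨h1, h2⟩, rfl⟩
    refine ⟨?_, ?_⟩
    · simpa using h1
    · have h3 : prof (fun s => f (-s)) x.im = prof f (-x.im) := by
        rw [← prof_neg f, neg_neg]
      simpa [h3] using h2
  · rintro ⟨h1, h2⟩
    refine ⟨Complex.conjLIE z, ⟨?_, ?_⟩, by simp⟩
    · simpa using h1
    · have h3 : prof (fun s => f (-s)) (-z.im) = prof f z.im := prof_neg f _
      simpa [h3] using h2

theorem dens_conj {f : ℤ → ℝ} {m : ℕ} {w : ℝ} {p : ℂ} {δ : ℝ}
    (h : HasDens (reg (fun s => f (-s)) m w) (Complex.conjLIE p) δ) :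
    HasDens (reg f m w) p δ := by
  have h1 := hasDens_image Complex.conjLIE h
  rw [conj_reg] at h1
  simpa using h1

theorem side_dens (hSL : StSL) {f : ℤ → ℝ} {m : ℕ} {w : ℝ} (hf : ∀ s, |f s| < w) {y0 s1 s2 : ℝ}
    (hy : |y0| < m + 1 / 2)
    (hr : Tendsto (fun h : ℝ => (prof f (y0 + h) - prof f y0) / h) (𝓝[>] 0) (𝓝 s1))
    (hl : Tendsto (fun h : ℝ => (prof f (y0 + h) - prof f y0) / h) (𝓝[<] 0) (𝓝 s2)) :
    HasDens (reg f m w) ⟨w + prof f y0, y0⟩ (cone s1 s2) := by
  have hc := continuous_prof f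
  have hpos : ∀ y, 0 < w + prof f y := fun y => by
    have := abs_lt.1 (abs_prof_lt f hf y)
    linarith [this.1]
  have e1 : ∀ᶠ z : ℂ in 𝓝 (⟨w + prof f y0, y0⟩ : ℂ), |z.im| < m + 1 / 2 :=
    (Complex.continuous_im.abs.continuousAt).eventually_lt continuousAt_const hy
  have e2 : ∀ᶠ z : ℂ in 𝓝 (⟨w + prof f y0, y0⟩ : ℂ), 0 < z.re :=
    continuousAt_const.eventually_lt Complex.continuous_re.continuousAt (hpos y0)
  have e3 : ∀ᶠ z : ℂ in 𝓝 (⟨w + prof f y0, y0⟩ : ℂ),
      (z ∈ reg f m w ↔ z ∈ {z : ℂ | z.re ≤ w + prof f z.im}) := by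
    filter_upwards [e1, e2] with z h1 h2
    constructor
    · rintro ⟨h3, h4⟩
      exact (le_abs_self _).trans h4
    · intro h3
      have h3' : z.re ≤ w + prof f z.im := h3
      exact ⟨h1.le, by rw [abs_of_pos h2]; exact h3'⟩
  obtain ⟨r0, hr0, hb⟩ := Metric.eventually_nhds_iff_ball.1 e3
  refine hSL.1 (fun y => w + prof f y) y0 s1 s2 r0 (reg f m w) (by fun_prop) hr0 ?_ ?_ ?_
  · ext z
    constructor
    · rintro ⟨h1, h2⟩
      exact ⟨(hb z h2).1 h1, h2⟩
    · rintro ⟨h1, h2⟩
      exact ⟨(hb z h2).2 h1, h2⟩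
  · refine hr.congr fun h => ?_
    simp only [add_sub_add_left_eq_sub]
  · refine hl.congr fun h => ?_
    simp only [add_sub_add_left_eq_sub]

theorem side_half (hSL : StSL) {f : ℤ → ℝ} {m : ℕ} {w : ℝ} (hf : ∀ s, |f s| < w) {y0 : ℝ}
    (hy : |y0| < m + 1 / 2) (hn : ∀ n : ℤ, y0 ≠ n) :
    HasDens (reg f m w) ⟨w + prof f y0, y0⟩ (1 / 2) := by
  obtain ⟨σ, hσ⟩ : ∃ σ, HasDerivAt (prof f) σ y0 := ⟨_, (differentiableAt_prof f hn).hasDerivAt⟩
  rw [hasDerivAt_iff_tendsto_slope_zero] at hσ
  have h1 : Tendsto (fun h : ℝ => (prof f (y0 + h) - prof f y0) / h) (𝓝[≠] 0) (𝓝 σ) := by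
    refine hσ.congr fun h => ?_
    rw [smul_eq_mul]
    ring
  have h2 := side_dens hSL hf hy (h1.mono_left (nhdsWithin_mono _ fun x hx => ne_of_gt hx))
    (h1.mono_left (nhdsWithin_mono _ fun x hx => ne_of_lt hx))
  rwa [hSL.2.1 σ] at h2

theorem top_dens (hSL : StSL) {f : ℤ → ℝ} {m : ℕ} {w : ℝ} (hf : ∀ s, |f s| < w) {p : ℂ}
    (hp : p ∈ reg f m w) (him : p.im = m + 1 / 2) (hre : 0 ≤ p.re) :
    HasDens (reg f m w) p (1 / 2) ∨ HasDens (reg f m w) p (1 / 4) := by
  have hc := continuous_prof f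
  have hp0 : prof f p.im = 0 := by
    rw [him]
    exact_mod_cast prof_half f (m : ℤ)
  have hw0 : 0 < w := lt_of_le_of_lt (abs_nonneg (f 0)) (hf 0)
  have hpos : ∀ y, 0 < w + prof f y := fun y => by
    have := abs_lt.1 (abs_prof_lt f hf y)
    linarith [this.1]
  have hle : p.re ≤ w := by
    have := hp.2
    rw [hp0, add_zero] at this
    exact (le_abs_self _).trans this
  have e1 : ∀ᶠ z : ℂ in 𝓝 p, -(m + 1 / 2 : ℝ) < z.im := by
    refine continuousAt_const.eventually_lt Complex.continuous_im.continuousAt ?_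
    rw [him]
    have : (0 : ℝ) ≤ m := Nat.cast_nonneg m
    linarith
  rcases lt_or_eq_of_le hle with hlt | heq
  · left
    have e2 : ∀ᶠ z : ℂ in 𝓝 p, |z.re| < w + prof f z.im := by
      refine (Complex.continuous_re.abs.continuousAt).eventually_lt
        (Continuous.continuousAt (by fun_prop)) ?_
      rw [hp0, add_zero, abs_of_nonneg hre]
      exact hlt
    have h1 := hasDens_half (T := univ) (p := p) (y0 := (m + 1 / 2 : ℝ)) him
      (fun z => ⟨fun _ => mem_univ _, fun _ => mem_univ _⟩) (hasDens_univ p)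
    refine hasDens_congr' ?_ h1
    filter_upwards [e1, e2] with z h1 h2
    constructor
    · rintro ⟨-, h3⟩
      have h3' : z.im ≤ m + 1 / 2 := h3
      exact ⟨abs_le.2 ⟨h1.le, h3'⟩, h2.le⟩
    · rintro ⟨h3, -⟩
      refine ⟨mem_univ _, ?_⟩
      change z.im ≤ m + 1 / 2
      exact (abs_le.1 h3).2
  · right
    set y0 : ℝ := m + 1 / 2 with hy0
    set v : ℝ → ℝ := fun y => w + f m * (4 * (y - y0) ^ 2) with hv
    have hv0 : v y0 = w := by simp [hv]
    have hpe : p = ⟨v y0, y0⟩ := by
      apply Complex.ext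
      · rw [hv0, heq]
      · rw [him]
    have hs : Tendsto (fun h : ℝ => (v (y0 + h) - v y0) / h) (𝓝[≠] 0) (𝓝 0) := by
      have h1 : ∀ᶠ h : ℝ in 𝓝[≠] 0, (v (y0 + h) - v y0) / h = f m * (4 * h) := by
        filter_upwards [self_mem_nhdsWithin] with h hh
        have hh' : h ≠ 0 := hh
        rw [hv0, hv]
        simp only [add_sub_cancel_left]
        field_simp
      refine Tendsto.congr' (EventuallyEq.symm h1) ?_
      have h5 : Tendsto (fun h : ℝ => f m * (4 * h)) (𝓝 0) (𝓝 (f m * (4 * 0))) := by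
        apply Continuous.tendsto
        fun_prop
      rw [mul_zero, mul_zero] at h5
      exact h5.mono_left nhdsWithin_le_nhds
    have h1 : HasDens {z : ℂ | z.re ≤ v z.im} p (1 / 2) := by
      rw [hpe, ← hSL.2.1 0]
      refine hSL.1 v y0 0 0 1 _ (by rw [hv]; fun_prop) one_pos rfl
        (hs.mono_left (nhdsWithin_mono _ fun x hx => ne_of_gt hx))
        (hs.mono_left (nhdsWithin_mono _ fun x hx => ne_of_lt hx))
    have h2 := hasDens_half (T := {z : ℂ | z.re ≤ v z.im}) (p := p) (y0 := y0) him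
      (fun z => by
        change z.re ≤ v z.im ↔ z.re ≤ v (2 * y0 - z.im)
        have : v (2 * y0 - z.im) = v z.im := by rw [hv]; simp only; ring
        rw [this]) h1
    have h3 : (1 / 2 / 2 : ℝ) = 1 / 4 := by norm_num
    rw [h3] at h2
    refine hasDens_congr' ?_ h2
    have e2 : ∀ᶠ z : ℂ in 𝓝 p, 0 < z.re := by
      refine continuousAt_const.eventually_lt Complex.continuous_re.continuousAt ?_
      rw [heq]; exact hw0
    have e3 : ∀ᶠ z : ℂ in 𝓝 p, (m : ℝ) < z.im := by
      refine continuousAt_const.eventually_lt Complex.continuous_im.continuousAt ?_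
      rw [him, hy0]; linarith
    filter_upwards [e1, e2, e3] with z h4 h5 h6
    have key : z.im ≤ y0 → w + prof f z.im = v z.im := by
      intro h7
      rw [hy0] at h7
      rw [prof_eq f (k := (m : ℤ)) (by push_cast; rw [abs_le]; constructor <;> linarith), q_of_le
        (by push_cast; rw [abs_le]; constructor <;> linarith), abs_of_pos (by push_cast; linarith)]
      rw [hv, hy0]
      push_cast
      ring
    constructor
    · rintro ⟨h7, h8⟩
      have h7' : z.re ≤ v z.im := h7
      have h8' : z.im ≤ y0 := h8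
      refine ⟨abs_le.2 ⟨h4.le, h8'⟩, ?_⟩
      rw [abs_of_pos h5, key h8']
      exact h7'
    · rintro ⟨h7, h8⟩
      have h9 : z.im ≤ y0 := (abs_le.1 h7).2
      refine ⟨?_, h9⟩
      change z.re ≤ v z.im
      rw [← key h9]
      exact (le_abs_self _).trans h8

theorem stDG (hSL : StSL) : StDG := by
  intro f m w hf
  have hc := continuous_prof f
  have hpos : ∀ y, 0 < w + prof f y := fun y => by
    have := abs_lt.1 (abs_prof_lt f hf y)
    linarith [this.1]
  constructor
  · intro s p hs him hre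
    -- WLOG `0 ≤ p.re`
    have main : ∀ p : ℂ, p.im = s → p.re = w + f s → HasDens (reg f m w) p (th (4 * f s)) := by
      intro p him hre
      have hy : |(s : ℝ)| < m + 1 / 2 := by
        have h1 : ((|s| : ℤ) : ℝ) ≤ ((m : ℤ) : ℝ) := by exact_mod_cast hs
        push_cast at h1
        linarith
      have h := side_dens hSL hf hy (slope_right f s) (slope_left f s)
      rw [hSL.2.2 (4 * f s), prof_int] at h
      have hpe : p = ⟨w + f s, s⟩ := Complex.ext hre him
      rw [hpe]
      exact h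
    rcases le_total 0 p.re with h0 | h0
    · exact main p him (by rwa [abs_of_nonneg h0] at hre)
    · refine dens_mRe (main (mRe p) (by rw [mRe_im]; exact him) ?_)
      rw [mRe_re]
      rwa [abs_of_nonpos h0] at hre
  · -- points which are not apexes, `0 ≤ p.re`
    have main : ∀ (f : ℤ → ℝ), (∀ s, |f s| < w) → ∀ p ∈ reg f m w, 0 ≤ p.re → p.im < m + 1 / 2 →
        -(m + 1 / 2 : ℝ) < p.im → (¬ ∃ s : ℤ, p.im = s ∧ |p.re| = w + f s) →
        HasDens (reg f m w) p 1 ∨ HasDens (reg f m w) p (1 / 2) := by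
      intro f hf p hp h0 h1 h2 hn
      have hc := continuous_prof f
      have hle : p.re ≤ w + prof f p.im := (le_abs_self _).trans hp.2
      rcases lt_or_eq_of_le hle with h3 | h3
      · left
        apply hasDens_nhds
        have e1 : ∀ᶠ z : ℂ in 𝓝 p, |z.im| < m + 1 / 2 :=
          (Complex.continuous_im.abs.continuousAt).eventually_lt continuousAt_const
            (abs_lt.2 ⟨h2, h1⟩)
        have e2 : ∀ᶠ z : ℂ in 𝓝 p, |z.re| < w + prof f z.im := by
          refine (Complex.continuous_re.abs.continuousAt).eventually_lt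
            (Continuous.continuousAt (by fun_prop)) ?_
          rw [abs_of_nonneg h0]
          exact h3
        filter_upwards [e1, e2] with z h4 h5
        exact ⟨h4.le, h5.le⟩
      · right
        have hpe : p = ⟨w + prof f p.im, p.im⟩ := Complex.ext h3 rfl
        rw [hpe]
        refine side_half hSL hf (abs_lt.2 ⟨h2, h1⟩) ?_
        intro n hn'
        apply hn
        refine ⟨n, hn', ?_⟩
        rw [abs_of_nonneg h0, h3, hn', prof_int]
    have main2 : ∀ p ∈ reg f m w, 0 ≤ p.re → (¬ ∃ s : ℤ, p.im = s ∧ |p.re| = w + f s) →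
        HasDens (reg f m w) p 1 ∨ HasDens (reg f m w) p (1 / 2) ∨
          HasDens (reg f m w) p (1 / 4) := by
      intro p hp h0 hn
      have h1 := abs_le.1 hp.1
      rcases lt_or_eq_of_le h1.2 with h2 | h2
      · rcases lt_or_eq_of_le h1.1 with h3 | h3
        · rcases main f hf p hp h0 h2 h3 hn with h | h
          · exact Or.inl h
          · exact Or.inr (Or.inl h)
        · -- bottom
          right
          have hf' : ∀ s : ℤ, |(fun s => f (-s)) s| < w := fun s => hf (-s)
          have hp' : Complex.conjLIE p ∈ reg (fun s => f (-s)) m w := by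
            have := conj_reg f m w
            rw [← this] at hp
            obtain ⟨x, hx, rfl⟩ := hp
            simpa using hx
          rcases top_dens hSL hf' hp' (by simp; linarith) (by simpa using h0) with h | h
          · exact Or.inl (dens_conj h)
          · exact Or.inr (dens_conj h)
      · right
        exact top_dens hSL hf hp h2 h0
    intro p hp hn
    rcases le_total 0 p.re with h0 | h0
    · exact main2 p hp h0 hn
    · have hp' : mRe p ∈ reg f m w := by
        rw [← mRe_reg]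
        exact mem_image_of_mem _ hp
      have h := main2 (mRe p) hp' (by rw [mRe_re]; linarith) (by
        rw [mRe_im, mRe_re, abs_neg]
        exact hn)
      rcases h with h | h | h
      · exact Or.inl (dens_mRe h)
      · exact Or.inr (Or.inl (dens_mRe h))
      · exact Or.inr (Or.inr (dens_mRe h))

end Pool.Agent.H724.SU
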