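import Pool.Agent.R612.SU.Stm

set_option autoImplicit false

open MeasureTheory Set Filter Topology

namespace Pool.Agent.H724.SU

open Pool.Agent.R612.SU

/-! ### The profile -/

theorem q_zero : q 0 = 1 := by simp [q]

theorem q_eq_zero {t : ℝ} (h : 1 / 2 ≤ |t|) : q t = 0 := by
  unfold q
  rw [max_eq_left (by linarith)]
  norm_num

theorem q_of_le {t : ℝ} (h : |t| ≤ 1 / 2) : q t = (1 - 2 * |t|) ^ 2 := by
  unfold q
  rw [max_eq_right (by linarith)]

theorem q_nonneg (t : ℝ) : 0 ≤ q t := by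
  unfold q
  positivity

theorem q_le_one (t : ℝ) : q t ≤ 1 := by
  unfold q
  have h1 : 0 ≤ max 0 (1 - 2 * |t|) := le_max_left _ _
  have h2 : max 0 (1 - 2 * |t|) ≤ 1 := max_le zero_le_one (by linarith [abs_nonneg t])
  nlinarith

theorem q_neg (t : ℝ) : q (-t) = q t := by
  unfold q
  rw [abs_neg]

theorem continuous_q : Continuous q := by
  unfold q
  fun_prop

theorem hasDerivAt_maxsq (x : ℝ) : HasDerivAt (fun x : ℝ => (max 0 x) ^ 2) (2 * max 0 x) x := by
  rcases lt_trichotomy x 0 with hx | hx | hx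
  · rw [max_eq_left hx.le, mul_zero]
    refine (hasDerivAt_const x (0 : ℝ)).congr_of_eventuallyEq ?_
    filter_upwards [eventually_lt_nhds hx] with y hy
    rw [max_eq_left hy.le]
    norm_num
  · subst hx
    rw [max_self, mul_zero]
    rw [hasDerivAt_iff_isLittleO_nhds_zero]
    simp only [zero_add, max_self, smul_zero, sub_zero, ne_eq, OfNat.ofNat_ne_zero,
      not_false_eq_true, zero_pow]
    rw [Asymptotics.isLittleO_iff]
    intro c hc
    filter_upwards [Metric.ball_mem_nhds (0 : ℝ) hc] with y hy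
    rw [Metric.mem_ball, dist_zero_right, Real.norm_eq_abs] at hy
    rw [Real.norm_eq_abs, Real.norm_eq_abs]
    have h1 : 0 ≤ max 0 y := le_max_left _ _
    have h2 : max 0 y ≤ |y| := max_le (abs_nonneg y) (le_abs_self y)
    rw [abs_of_nonneg (by positivity)]
    nlinarith [abs_nonneg y]
  · rw [max_eq_right hx.le]
    have h := (hasDerivAt_id x).pow 2
    simp only [id_eq] at h
    refine (HasDerivAt.congr_of_eventuallyEq (f := fun x : ℝ => x ^ 2) ?_ ?_)
    · simpa using hasDerivAt_pow 2 x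
    · filter_upwards [eventually_gt_nhds hx] with y hy
      rw [max_eq_right hy.le]

theorem differentiableAt_q {t : ℝ} (ht : t ≠ 0) : DifferentiableAt ℝ q t := by
  have h1 : DifferentiableAt ℝ (fun t : ℝ => 1 - 2 * |t|) t := by
    have := differentiableAt_abs ht
    fun_prop
  exact ((hasDerivAt_maxsq (1 - 2 * |t|)).differentiableAt).comp t h1

theorem prof_eq (f : ℤ → ℝ) {y : ℝ} {k : ℤ} (h : |y - k| ≤ 1 / 2) :
    prof f y = f k * q (y - k) := by
  unfold prof
  by_cases hk : round y = k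
  · rw [hk]
  · have h1 : |y - round y| ≤ 1 / 2 := abs_sub_round y
    have h2 : (1 : ℝ) ≤ |(round y : ℝ) - k| := by
      have h3 : (1 : ℤ) ≤ |round y - k| := Int.one_le_abs (sub_ne_zero.2 hk)
      have h4 : ((1 : ℤ) : ℝ) ≤ ((|round y - k| : ℤ) : ℝ) := by exact_mod_cast h3
      push_cast at h4
      exact h4
    have h3 : |(round y : ℝ) - k| ≤ |y - round y| + |y - k| := by
      have h4 : (round y : ℝ) - k = -(y - round y) + (y - k) := by ring
      rw [h4]
      refine (abs_add_le _ _).trans ?_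
      rw [abs_neg]
    rw [q_eq_zero (t := y - round y) (by linarith), q_eq_zero (t := y - k) (by linarith)]
    simp

theorem prof_near (f : ℤ → ℝ) (n : ℤ) {y : ℝ} (h1 : (n : ℝ) - 1 ≤ y) (h2 : y ≤ n + 1) :
    prof f y = f (n - 1) * q (y - (n - 1)) + f n * q (y - n) + f (n + 1) * q (y - (n + 1)) := by
  rcases le_total y ((n : ℝ) - 1 / 2) with h | h
  · have e1 : prof f y = f (n - 1) * q (y - ((n - 1 : ℤ) : ℝ)) :=
      prof_eq f (by push_cast; rw [abs_le]; constructor <;> linarith)
    rw [e1, q_eq_zero (t := y - n) (by rw [abs_of_nonpos (by linarith)]; linarith),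
      q_eq_zero (t := y - (n + 1)) (by rw [abs_of_nonpos (by linarith)]; linarith)]
    push_cast
    ring
  · rcases le_total y ((n : ℝ) + 1 / 2) with h' | h'
    · have e1 : prof f y = f n * q (y - n) :=
        prof_eq f (by rw [abs_le]; constructor <;> linarith)
      rw [e1, q_eq_zero (t := y - (n - 1)) (by rw [abs_of_nonneg (by linarith)]; linarith),
        q_eq_zero (t := y - (n + 1)) (by rw [abs_of_nonpos (by linarith)]; linarith)]
      ring
    · have e1 : prof f y = f (n + 1) * q (y - ((n + 1 : ℤ) : ℝ)) :=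
        prof_eq f (by push_cast; rw [abs_le]; constructor <;> linarith)
      rw [e1, q_eq_zero (t := y - n) (by rw [abs_of_nonneg (by linarith)]; linarith),
        q_eq_zero (t := y - (n - 1)) (by rw [abs_of_nonneg (by linarith)]; linarith)]
      push_cast
      ring

theorem prof_near_ev (f : ℤ → ℝ) (y0 : ℝ) : ∃ n : ℤ, |y0 - n| ≤ 1 / 2 ∧
    prof f =ᶠ[𝓝 y0] fun y => f (n - 1) * q (y - (n - 1)) + f n * q (y - n) +
      f (n + 1) * q (y - (n + 1)) := by
  refine ⟨round y0, abs_sub_round y0, ?_⟩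
  have h := abs_sub_round y0
  rw [abs_le] at h
  have h1 : ∀ᶠ y in 𝓝 y0, ((round y0 : ℤ) : ℝ) - 1 < y := eventually_gt_nhds (by linarith)
  have h2 : ∀ᶠ y in 𝓝 y0, y < ((round y0 : ℤ) : ℝ) + 1 := eventually_lt_nhds (by linarith)
  filter_upwards [h1, h2] with y h1 h2
  exact prof_near f _ h1.le h2.le

theorem continuous_prof (f : ℤ → ℝ) : Continuous (prof f) := by
  rw [continuous_iff_continuousAt]
  intro y0
  obtain ⟨n, -, hn⟩ := prof_near_ev f y0
  refine ContinuousAt.congr ?_ hn.symm
  have := continuous_q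
  refine Continuous.continuousAt ?_
  fun_prop

theorem differentiableAt_prof (f : ℤ → ℝ) {y0 : ℝ} (h : ∀ n : ℤ, y0 ≠ n) :
    DifferentiableAt ℝ (prof f) y0 := by
  obtain ⟨n, -, hn⟩ := prof_near_ev f y0
  refine DifferentiableAt.congr_of_eventuallyEq ?_ hn
  have h1 : DifferentiableAt ℝ (fun y : ℝ => q (y - (n - 1))) y0 := by
    have hne : y0 - ((n : ℝ) - 1) ≠ 0 := by
      intro h0
      apply h (n - 1)
      push_cast
      linarith
    exact DifferentiableAt.comp (g := q) (f := fun y : ℝ => y - (n - 1)) y0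
      (differentiableAt_q hne) (by fun_prop)
  have h2 : DifferentiableAt ℝ (fun y : ℝ => q (y - n)) y0 := by
    have hne : y0 - (n : ℝ) ≠ 0 := by
      intro h0
      apply h n
      linarith
    exact DifferentiableAt.comp (g := q) (f := fun y : ℝ => y - n) y0
      (differentiableAt_q hne) (by fun_prop)
  have h3 : DifferentiableAt ℝ (fun y : ℝ => q (y - (n + 1))) y0 := by
    have hne : y0 - ((n : ℝ) + 1) ≠ 0 := by
      intro h0
      apply h (n + 1)
      push_cast
      linarith
    exact DifferentiableAt.comp (g := q) (f := fun y : ℝ => y - (n + 1)) y0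
      (differentiableAt_q hne) (by fun_prop)
  fun_prop

theorem prof_int (f : ℤ → ℝ) (s : ℤ) : prof f s = f s := by
  rw [prof_eq f (k := s) (by simp), sub_self, q_zero, mul_one]

theorem prof_half (f : ℤ → ℝ) (m : ℤ) : prof f (m + 1 / 2) = 0 := by
  rw [prof_eq f (k := m) (by rw [abs_le]; constructor <;> linarith),
    q_eq_zero (by rw [abs_of_nonneg] <;> linarith), mul_zero]

theorem prof_neg (f : ℤ → ℝ) (y : ℝ) : prof (fun s => f (-s)) (-y) = prof f y := by
  have h := abs_sub_round y
  rw [prof_eq (fun s => f (-s)) (k := -round y) (y := -y)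
    (by
      push_cast
      rw [show -y - -(round y : ℝ) = -(y - round y) by ring, abs_neg]
      exact h)]
  unfold prof
  rw [neg_neg]
  congr 1
  rw [← q_neg]
  congr 1
  push_cast
  ring

theorem abs_prof_lt (f : ℤ → ℝ) {w : ℝ} (hf : ∀ s, |f s| < w) (y : ℝ) : |prof f y| < w := by
  unfold prof
  rw [abs_mul, abs_of_nonneg (q_nonneg _)]
  have h1 := hf (round y)
  have h2 := q_le_one (y - round y)
  have h3 := q_nonneg (y - round y)
  nlinarith [abs_nonneg (f (round y))]

/-- one-sided slopes at the integers -/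
theorem slope_right (f : ℤ → ℝ) (s : ℤ) :
    Tendsto (fun h : ℝ => (prof f (s + h) - prof f s) / h) (𝓝[>] 0) (𝓝 (-(4 * f s))) := by
  have h1 : ∀ᶠ h : ℝ in 𝓝[>] 0, (prof f (s + h) - prof f s) / h = f s * (-4 + 4 * h) := by
    have h2 : ∀ᶠ h : ℝ in 𝓝[>] 0, h < 1 / 2 :=
      eventually_nhdsWithin_of_eventually_nhds (eventually_lt_nhds (by norm_num))
    filter_upwards [h2, self_mem_nhdsWithin] with h h3 h4
    have h4' : (0 : ℝ) < h := h4
    rw [prof_int, prof_eq f (k := s) (y := s + h)
      (by rw [add_sub_cancel_left, abs_of_pos h4']; exact h3.le), add_sub_cancel_left,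
      q_of_le (by rw [abs_of_pos h4']; exact h3.le), abs_of_pos h4']
    field_simp
    ring
  refine Tendsto.congr' (EventuallyEq.symm h1) ?_
  have h5 : Tendsto (fun h : ℝ => f s * (-4 + 4 * h)) (𝓝 0) (𝓝 (f s * (-4 + 4 * 0))) := by
    apply Continuous.tendsto
    fun_prop
  have h6 : f s * (-4 + 4 * 0) = -(4 * f s) := by ring
  rw [h6] at h5
  exact h5.mono_left nhdsWithin_le_nhds

theorem slope_left (f : ℤ → ℝ) (s : ℤ) :
    Tendsto (fun h : ℝ => (prof f (s + h) - prof f s) / h) (𝓝[<] 0) (𝓝 (4 * f s)) := by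
  have h1 : ∀ᶠ h : ℝ in 𝓝[<] 0, (prof f (s + h) - prof f s) / h = f s * (4 + 4 * h) := by
    have h2 : ∀ᶠ h : ℝ in 𝓝[<] 0, -(1 / 2) < h :=
      eventually_nhdsWithin_of_eventually_nhds (eventually_gt_nhds (by norm_num))
    filter_upwards [h2, self_mem_nhdsWithin] with h h3 h4
    have h4' : h < 0 := h4
    rw [prof_int, prof_eq f (k := s) (y := s + h)
      (by rw [add_sub_cancel_left, abs_of_neg h4']; linarith), add_sub_cancel_left,
      q_of_le (by rw [abs_of_neg h4']; linarith), abs_of_neg h4']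
    have : h ≠ 0 := h4'.ne
    field_simp
    ring
  refine Tendsto.congr' (EventuallyEq.symm h1) ?_
  have h5 : Tendsto (fun h : ℝ => f s * (4 + 4 * h)) (𝓝 0) (𝓝 (f s * (4 + 4 * 0))) := by
    apply Continuous.tendsto
    fun_prop
  have h6 : f s * (4 + 4 * 0) = 4 * f s := by ring
  rw [h6] at h5
  exact h5.mono_left nhdsWithin_le_nhds

end Pool.Agent.H724.SU
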